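import Pool.Agent.Lib.MP_15115f_an.Exists
import Pool.Agent.Lib.MP_15115f_an.Main

namespace Pool.Agent.Results.MP_15115f_an.Binormal

open Pool.Agent.Lib.MP_15115f_an

theorem result {H : Type*} [NormedAddCommGroup H] [InnerProductSpace ℂ H] [CompleteSpace H]
    (T : H →L[ℂ] H) (hT : Commute (CFC.abs T) (CFC.abs (star T))) :
    mean (aluthge T) = aluthge (mean T) ↔ Commute T (mean T) := by
  have h := isPolar_polar T
  have hW := isPolar_polar (aluthge T)
  have hZ := isPolar_polar (mean T)
  have hbi : Commute (CFC.abs T) (polar T * CFC.abs T * star (polar T)) := by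
    rw [← h.pol.abs_star, ← h.1]; exact hT
  have key := main h.pol hbi (S := aluthge T) (M := mean T) rfl
    (by rw [← h.1]; rfl) hW.pol hW.1 hZ.pol hZ.1
  rw [← h.1] at key
  refine Iff.trans key ⟨fun hc => ?_, fun hc => ?_⟩
  · exact ((Commute.refl T).add_right hc).smul_right _
  · have h2 : CFC.abs T * polar T = (2 : ℂ) • mean T - T := by
      rw [mean, smul_smul]; norm_num
    rw [h2]
    exact (hc.smul_right _).sub_right (Commute.refl T)

end Pool.Agent.Results.MP_15115f_an.Binormal
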