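import Pool.Agent.Lib.MP_15115f_an.Blk

namespace Pool.Agent.Results.MP_15115f_an.Blocks

open Pool.Agent.Lib.MP_15115f_an

theorem result {H : Type*} [NormedAddCommGroup H] [InnerProductSpace ℂ H] [CompleteSpace H]
    (T V P : H →L[ℂ] H) (hT : T.ker = ⊥) (hV : V = polar T) (hP : P = CFC.abs T)
    (h1 : Commute (V * star V) P) (h2 : Commute (V * star V) (star V * P * V))
    (hd : Dense {v : H | ∃ K : Submodule ℂ H, FiniteDimensional ℂ K ∧ v ∈ K ∧
      ∀ w ∈ K, P w ∈ K ∧ (star V * P * V) w ∈ K ∧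
        (star V * (star V * P * V) * V) w ∈ K}) :
    mean (aluthge T) = aluthge (mean T) ↔ Commute T (mean T) :=
  blk_main hT hV hP h1 h2 hd

end Pool.Agent.Results.MP_15115f_an.Blocks
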