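import Pool.Agent.Lib.MP_15115f_an.Proj

namespace Pool.Agent.Results.MP_15115f_an.Compression

open Pool.Agent.Lib.MP_15115f_an

theorem result {H : Type*} [NormedAddCommGroup H] [InnerProductSpace ℂ H] [CompleteSpace H]
    (T C : H →L[ℂ] H) (hC : C = (T.ker)ᗮ.starProjection * T) (hT : Commute (CFC.abs T) C) :
    mean (aluthge T) = aluthge (mean T) ↔ Commute C (star C * C) := by
  have h := isPolar_polar T
  have hW := isPolar_polar (aluthge T)
  have hZ := isPolar_polar (mean T)
  rw [h.proj] at hC
  subst hC
  have key := comp_main h.pol (by rw [← h.1]; exact hT) (S := aluthge T) (M := mean T) rfl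
    (by rw [← h.1]; rfl) hW.pol hW.1 hZ.1
  rw [← h.1] at key
  exact key

end Pool.Agent.Results.MP_15115f_an.Compression
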