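import Pool.Agent.Lib.MP_15115f_an.Inv

namespace Pool.Agent.Results.MP_15115f_an.Invertible

open Pool.Agent.Lib.MP_15115f_an

theorem result {H : Type*} [NormedAddCommGroup H] [InnerProductSpace ℂ H] [CompleteSpace H]
    (T : H →L[ℂ] H) (hT : IsUnit T)
    (htr : ∀ x : StarAlgebra.elemental ℂ T, x ≠ 0 →
      ∃ τ : StarAlgebra.elemental ℂ T →ₗ[ℂ] ℂ, (∀ y z, τ (y * z) = τ (z * y)) ∧
        (∀ y, 0 ≤ (τ (star y * y)).re) ∧ 0 < (τ (star x * x)).re) :
    mean (aluthge T) = aluthge (mean T) ↔ IsStarNormal T := by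
  have h := isPolar_polar T
  have hW := isPolar_polar (aluthge T)
  have hZ := isPolar_polar (mean T)
  have htr' : Tracial (StarAlgebra.elemental ℂ T) := by
    intro x hx H1
    by_contra hne
    obtain ⟨τ, t1, t2, t3⟩ := htr ⟨x, hx⟩ (fun e => hne (congrArg Subtype.val e))
    obtain ⟨σ, hσ⟩ := LinearMap.exists_extend
      (p := Subalgebra.toSubmodule (StarAlgebra.elemental ℂ T).toSubalgebra) τ
    have e : ∀ y : StarAlgebra.elemental ℂ T, σ y = τ y := fun y => LinearMap.congr_fun hσ y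
    have := H1 σ (fun y hy z hz => by
        exact (e (⟨y, hy⟩ * ⟨z, hz⟩)).trans ((t1 _ _).trans (e (⟨z, hz⟩ * ⟨y, hy⟩)).symm))
      (fun y hy => by
        have := t2 ⟨y, hy⟩
        rwa [← e] at this)
    rw [← e] at t3
    exact absurd t3 (not_lt.mpr this)
  exact inv_main (StarAlgebra.elemental.isClosed ℂ T) htr' hT (StarAlgebra.elemental.self_mem ℂ T)
    h.pol h.1 rfl rfl hW.pol hW.1 hZ.pol hZ.1

end Pool.Agent.Results.MP_15115f_an.Invertible
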